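import Pool.Agent.H17.Pw3

set_option autoImplicit false

namespace Pool.Agent.Results.MP_29ab50_al.PowerEmbedding

universe u

/-- Every periodic commutative semigroup `S` embeds into the power semigroup of nonempty subsets
of a periodic abelian group `G`. -/
theorem result (S : Type u) [CommSemigroup S]
    (hS : ∀ a : S, ((Subsemigroup.closure ({a} : Set S) : Subsemigroup S) : Set S).Finite) :
    ∃ (G : Type u) (_ : CommGroup G) (φ : S → Set G), (∀ g : G, IsOfFinOrder g) ∧
      Function.Injective φ ∧ (∀ s, (φ s).Nonempty) ∧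
      ∀ s t, φ (s * t) = {x | ∃ a ∈ φ s, ∃ b ∈ φ t, x = a * b} :=
  Pool.Agent.H17.Pw.mainPw hS

end Pool.Agent.Results.MP_29ab50_al.PowerEmbedding
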